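import Mathlib
import Pool.Agent.Q61.CV.Def

/-!
# Project CV (MP_8dfb46_an): objects and statements of the lemmas

A convex core `D` for which the outer two-phase Serrin problem has a solution `Ω` that is not convex:
`N = 2`, `σc = 1/100`, `Ω` and `D` perturbations of discs with `k`-fold symmetry, `k` large.
-/

open MeasureTheory Set Filter Topology Metric
open scoped ContDiff RealInnerProductSpace ComplexConjugate NNReal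

namespace Pool.Agent.Q61.CV

noncomputable section

/-! ## General lemmas -/

/-- `f` is holomorphic on the disc of radius `R` about `0` with derivative close to `1`. -/
def Good (R : ℝ) (f : ℂ → ℂ) : Prop :=
  ∀ z ∈ ball (0 : ℂ) R, DifferentiableAt ℂ f z ∧ ‖deriv f z - 1‖ ≤ 1 / 2

/-- INJ: bi-Lipschitz bounds. -/
def S_INJ : Prop := ∀ (R : ℝ) (f : ℂ → ℂ), Good R f → ∀ a ∈ ball (0 : ℂ) R, ∀ b ∈ ball (0 : ℂ) R,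
  ‖a - b‖ / 2 ≤ ‖f a - f b‖ ∧ ‖f a - f b‖ ≤ 2 * ‖a - b‖

/-- The properties of an inverse `g` of `f` on the disc of radius `R`. -/
structure IsInv (R : ℝ) (f g : ℂ → ℂ) : Prop where
  left : ∀ z ∈ ball (0 : ℂ) R, g (f z) = z
  isOpen : IsOpen (f '' ball (0 : ℂ) R)
  deriv : ∀ z ∈ ball (0 : ℂ) R, HasDerivAt g (deriv f z)⁻¹ (f z)
  lip : LipschitzOnWith 2 g (f '' ball (0 : ℂ) R)
  smooth : ContDiffOn ℝ ∞ g (f '' ball (0 : ℂ) R)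

/-- INV: the inverse exists. -/
def S_INV : Prop := ∀ (R : ℝ) (f : ℂ → ℂ), 0 < R → Good R f → ∃ g, IsInv R f g

/-- DOM: the image of the unit disc is a domain, with closure, boundary and normals. -/
def S_DOM : Prop := ∀ (R : ℝ) (f : ℂ → ℂ), 1 < R → Good R f →
  IsDomain (f '' ball (0 : ℂ) 1) ∧
  closure (f '' ball (0 : ℂ) 1) = f '' closedBall (0 : ℂ) 1 ∧
  frontier (f '' ball (0 : ℂ) 1) = f '' sphere (0 : ℂ) 1 ∧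
  ∀ ζ : ℂ, ‖ζ‖ = 1 →
    IsOutwardNormal (f '' ball (0 : ℂ) 1) (f ζ) (ζ * deriv f ζ / (‖deriv f ζ‖ : ℂ))

/-- CVa: the function `m` with `m' = - r sin (χ - χ(a))`, `χ' > 0`, is nonpositive. -/
def S_CVa : Prop := ∀ (a : ℝ) (χ χ' m r : ℝ → ℝ), (∀ t, HasDerivAt χ (χ' t) t) →
  (∀ t, 0 < χ' t) → χ (a + 2 * Real.pi) = χ a + 2 * Real.pi → (∀ t, 0 < r t) →
  (∀ t, HasDerivAt m (-(r t * Real.sin (χ t - χ a))) t) → m a = 0 → m (a + 2 * Real.pi) = 0 →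
  ∀ t ∈ Icc a (a + 2 * Real.pi), m t ≤ 0

/-- CVb: supporting lines at the boundary points. -/
def S_CVb : Prop := ∀ (R : ℝ) (f : ℂ → ℂ), 1 < R → Good R f →
  (∀ ζ : ℂ, ‖ζ‖ = 1 → ‖ζ * deriv (deriv f) ζ / deriv f ζ‖ < 1) →
  ∀ ζ₀ ζ : ℂ, ‖ζ₀‖ = 1 → ‖ζ‖ = 1 → (conj (ζ₀ * deriv f ζ₀) * (f ζ - f ζ₀)).re ≤ 0

/-- CVc: convexity from the supporting lines. -/
def S_CVc : Prop := ∀ (R : ℝ) (f : ℂ → ℂ), 1 < R → Good R f →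
  (∀ ζ₀ ζ : ℂ, ‖ζ₀‖ = 1 → ‖ζ‖ = 1 → (conj (ζ₀ * deriv f ζ₀) * (f ζ - f ζ₀)).re ≤ 0) →
  Convex ℝ (f '' ball (0 : ℂ) 1)

/-- GLUE: a continuous function on a convex set `U`, Lipschitz on the closed set `K` and locally
Lipschitz outside of `K` with the same constant, is Lipschitz. -/
def S_GLUE : Prop := ∀ (U K : Set ℂ) (f : ℂ → ℝ) (L : ℝ≥0), Convex ℝ U → IsClosed K →
  ContinuousOn f U → LipschitzOnWith L f (K ∩ U) →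
  (∀ z ∈ U, z ∉ K → ∃ V ∈ 𝓝 z, LipschitzOnWith L f (V ∩ U)) → LipschitzOnWith L f U

/-- GL2: gluing along the curve `Θ(|ζ| = 1)`. -/
def S_GL2 : Prop := ∀ (R : ℝ) (Θ : ℂ → ℂ) (f₁ f₂ : ℂ → ℝ) (L₁ L₂ : ℝ≥0), 1 < R → Good R Θ →
  (∀ ζ : ℂ, ‖ζ‖ ≤ 1 → ‖Θ ζ‖ < 1) → LipschitzOnWith L₁ f₁ (closedBall (0 : ℂ) 1) →
  (∀ η ∈ closedBall (0 : ℂ) 1, η ∉ Θ '' ball (0 : ℂ) 1 → ∃ V ∈ 𝓝 η, LipschitzOnWith L₂ f₂ V) →
  (∀ ζ : ℂ, ‖ζ‖ = 1 → f₁ ζ = f₂ (Θ ζ)) →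
  ∃ L : ℝ≥0, ∀ w : ℂ → ℝ, (∀ ζ ∈ closedBall (0 : ℂ) 1, w (Θ ζ) = f₁ ζ) →
    (∀ η ∈ closedBall (0 : ℂ) 1, η ∉ Θ '' closedBall (0 : ℂ) 1 → w η = f₂ η) →
    LipschitzOnWith L w (closedBall (0 : ℂ) 1)

/-- EXT: extension by zero. -/
def S_EXT : Prop := ∀ (Ω : Set ℂ) (u : ℂ → ℝ) (L : ℝ≥0), IsOpen Ω →
  LipschitzOnWith L u (closure Ω) → (∀ z, z ∉ Ω → u z = 0) → LipschitzWith L u

/-- Wa: the field orthogonal to the gradient of a Lipschitz function has divergence zero. -/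
def S_Wa : Prop := ∀ (S : ℂ → ℝ) (L : ℝ≥0) (φ : ℂ → ℝ), LipschitzWith L S → ContDiff ℝ ∞ φ →
  HasCompactSupport φ →
  ∫ z, (fderiv ℝ S z Complex.I * fderiv ℝ φ z 1 - fderiv ℝ S z 1 * fderiv ℝ φ z Complex.I) = 0

/-- Wb. -/
def S_Wb : Prop := ∀ (φ : ℂ → ℝ), ContDiff ℝ ∞ φ → HasCompactSupport φ →
  ∫ z : ℂ, (z.re * fderiv ℝ φ z 1 + z.im * fderiv ℝ φ z Complex.I) = -2 * ∫ z, φ z

/-- W: the weak form of the equation from the stream function `S`. -/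
def S_W : Prop := ∀ (σ : ℝ) (D Ω Z : Set ℂ) (u S : ℂ → ℝ) (L₁ L₂ : ℝ≥0), IsOpen Ω →
  volume Z = 0 → LipschitzWith L₁ u → LipschitzOnWith L₂ S Ω →
  (∀ z ∈ Ω, z ∉ Z → DifferentiableAt ℝ u z ∧ DifferentiableAt ℝ S z ∧
    coef σ D z * fderiv ℝ u z 1 = -(z.re / 2) + fderiv ℝ S z Complex.I ∧
    coef σ D z * fderiv ℝ u z Complex.I = -(z.im / 2) - fderiv ℝ S z 1) →
  ∀ φ : ℂ → ℝ, ContDiff ℝ ∞ φ → HasCompactSupport φ → tsupport φ ⊆ Ω →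
    ∫ z in Ω, coef σ D z * ⟪gradient u z, gradient φ z⟫ = ∫ z in Ω, φ z

/-! ## Transmission -/

/-- The data of a solution: `E` maps the unit disc onto `Ω`, `E ∘ Θ` maps it onto `D`;
`u = - |z|^2 / 4 + Re H (E⁻¹ z)` in `Ω \ D` and `σ u = - |z|^2 / 4 + Re h ((E ∘ Θ)⁻¹ z)` in `D`. -/
structure Setup (σ c R : ℝ) (E Θ H h : ℂ → ℂ) : Prop where
  σ0 : 0 < σ
  R1 : 1 < R
  goodE : Good R E
  goodΘ : Good R Θ
  goodF : Good R (fun ζ => E (Θ ζ))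
  Θ0 : Θ 0 = 0
  Θmap : ∀ ζ : ℂ, ‖ζ‖ ≤ 1 → ‖Θ ζ‖ < 1
  ΘR : ∀ ζ ∈ ball (0 : ℂ) R, Θ ζ ∈ ball (0 : ℂ) R
  Hd : ∀ η ∈ ball (0 : ℂ) R, η ≠ 0 → DifferentiableAt ℂ H η
  hd : ∀ ζ ∈ ball (0 : ℂ) R, DifferentiableAt ℂ h ζ
  im : ∀ ζ : ℂ, ‖ζ‖ = 1 → (h ζ).im = (H (Θ ζ)).im
  re : ∀ ζ : ℂ, ‖ζ‖ = 1 → -(‖E (Θ ζ)‖ ^ 2 / 4) + (h ζ).re =
    σ * (-(‖E (Θ ζ)‖ ^ 2 / 4) + (H (Θ ζ)).re)
  bd : ∀ η : ℂ, ‖η‖ = 1 → -(‖E η‖ ^ 2 / 4) + (H η).re = 0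
  nm : ∀ η : ℂ, ‖η‖ = 1 → (η * deriv H η - conj (E η) * (η * deriv E η) / 2).re =
    c * ‖deriv E η‖

/-- The core. -/
def core (E Θ : ℂ → ℂ) : Set ℂ := (fun ζ => E (Θ ζ)) '' ball (0 : ℂ) 1

/-- The outer domain. -/
def outer (E : ℂ → ℂ) : Set ℂ := E '' ball (0 : ℂ) 1

open Classical in
/-- The solution `u`. -/
def uu (σ : ℝ) (E Θ H h gE gF : ℂ → ℂ) (z : ℂ) : ℝ :=
  if z ∈ closure (core E Θ) then σ⁻¹ * (-(‖z‖ ^ 2 / 4) + (h (gF z)).re)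
  else if z ∈ outer E then -(‖z‖ ^ 2 / 4) + (H (gE z)).re else 0

open Classical in
/-- The stream function. -/
def ss (E Θ H h gE gF : ℂ → ℂ) (z : ℂ) : ℝ :=
  if z ∈ closure (core E Θ) then (h (gF z)).im else (H (gE z)).im

/-- TRa: the stream function is Lipschitz in `Ω`. -/
def S_TRa : Prop := ∀ (σ c R : ℝ) (E Θ H h gE gF : ℂ → ℂ), Setup σ c R E Θ H h →
  IsInv R E gE → IsInv R (fun ζ => E (Θ ζ)) gF →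
  ∃ L : ℝ≥0, LipschitzOnWith L (ss E Θ H h gE gF) (outer E)

/-- TRb: the solution is Lipschitz in the closure of `Ω`. -/
def S_TRb : Prop := ∀ (σ c R : ℝ) (E Θ H h gE gF : ℂ → ℂ), Setup σ c R E Θ H h →
  IsInv R E gE → IsInv R (fun ζ => E (Θ ζ)) gF →
  ∃ L : ℝ≥0, LipschitzOnWith L (uu σ E Θ H h gE gF) (closure (outer E))

/-- TRc: the relation between `u` and the stream function. -/
def S_TRc : Prop := ∀ (σ c R : ℝ) (E Θ H h gE gF : ℂ → ℂ), Setup σ c R E Θ H h →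
  IsInv R E gE → IsInv R (fun ζ => E (Θ ζ)) gF →
  ∀ z ∈ outer E, z ∉ frontier (core E Θ) →
    DifferentiableAt ℝ (uu σ E Θ H h gE gF) z ∧ DifferentiableAt ℝ (ss E Θ H h gE gF) z ∧
    coef σ (core E Θ) z * fderiv ℝ (uu σ E Θ H h gE gF) z 1 =
      -(z.re / 2) + fderiv ℝ (ss E Θ H h gE gF) z Complex.I ∧
    coef σ (core E Θ) z * fderiv ℝ (uu σ E Θ H h gE gF) z Complex.I =
      -(z.im / 2) - fderiv ℝ (ss E Θ H h gE gF) z 1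

/-- TRd: the Neumann condition. -/
def S_TRd : Prop := ∀ (σ c R : ℝ) (E Θ H h gE gF : ℂ → ℂ), Setup σ c R E Θ H h →
  IsInv R E gE → IsInv R (fun ζ => E (Θ ζ)) gF →
  ∀ x ∈ frontier (outer E), ∃ (n : ℂ) (V : Set ℂ) (v : ℂ → ℝ),
    IsOutwardNormal (outer E) x n ∧ IsOpen V ∧ x ∈ V ∧ ContDiffOn ℝ ∞ v V ∧
      (∀ y ∈ V, y ∈ closure (outer E) → uu σ E Θ H h gE gF y = v y) ∧ fderiv ℝ v x n = c

/-- TR: the solution. -/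
def S_TR : Prop := ∀ (σ c R : ℝ) (E Θ H h : ℂ → ℂ), Setup σ c R E Θ H h →
  volume (frontier (core E Θ)) = 0 →
  IsDomain (core E Θ) ∧ IsDomain (outer E) ∧ closure (core E Θ) ⊆ outer E ∧
    ∃ u : ℂ → ℝ, Solves σ (core E Θ) (outer E) c u

/-! ## The concrete data -/

/-- `σ = 1/100`. -/
def sg : ℝ := 1 / 100

/-- `κ = 1/10`: the thickness of `Ω \ D` is about `κ / k`. -/
def kp : ℝ := 1 / 10

/-- `b = 1/k`. -/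
def bb (k : ℕ) : ℝ := 1 / k

/-- The coefficients of `E`. -/
def e1 (k : ℕ) : ℝ := 2 * bb k / (k + 1)

/-- The coefficients of `E`. -/
def e2 (k : ℕ) : ℝ := bb k ^ 2 / (2 * k + 1)

/-- The value of the normal derivative. -/
def cc (k : ℕ) : ℝ := -((1 + 2 * bb k * e1 k + bb k ^ 2 * e2 k) / (2 * (1 + bb k ^ 2)))

/-- The coefficients of `η H'(η)`. -/
def qm2 (k : ℕ) : ℝ := e2 k / 2

/-- The coefficients of `η H'(η)`. -/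
def qm1 (k : ℕ) : ℝ := (e1 k + 2 * bb k * e2 k) / 2 + cc k * bb k

/-- The coefficients of `η H'(η)`. -/
def q1 (k : ℕ) : ℝ := bb k + bb k ^ 2 * e1 k / 2 + cc k * bb k

/-- The coefficients of `η H'(η)`. -/
def q2 (k : ℕ) : ℝ := bb k ^ 2 / 2

/-- The constant term of `H`. -/
def H0 (k : ℕ) : ℝ := (1 + e1 k ^ 2 + e2 k ^ 2) / 4

/-- The conformal map onto `Ω`. -/
def EE (k : ℕ) (η : ℂ) : ℂ := η * (1 + e1 k * η ^ k + e2 k * η ^ (2 * k))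

/-- The function `H`. -/
def HH (k : ℕ) (η : ℂ) : ℂ :=
  H0 k + (1 / k : ℂ) * (q2 k / 2 * η ^ (2 * k) + q1 k * η ^ k - qm1 k / η ^ k -
    qm2 k / (2 * η ^ (2 * k)))

/-- The power series of `ψ`. -/
def psi (y : ℕ → ℂ) (s : ℂ) : ℂ := ∑' n, y n * s ^ n

/-- `Ψ = κ + ψ`. -/
def Psi (y : ℕ → ℂ) (s : ℂ) : ℂ := kp + psi y s

/-- `s exp (-Ψ)`. -/
def se (y : ℕ → ℂ) (s : ℂ) : ℂ := s * Complex.exp (-Psi y s)

/-- The limit of `k y_1`. -/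
def Y1 : ℝ := 2 / (1 - sg) * (Real.cosh kp + sg * Real.sinh kp)

/-- The coefficient of `1/s` in `P`. -/
def B1 (k : ℕ) (y1 : ℂ) : ℂ := qm1 k / k * Real.exp kp + qm2 k / k * Real.exp (2 * kp) * y1

/-- The coefficient of `1/s^2` in `P`. -/
def B2 (k : ℕ) : ℝ := qm2 k / (2 * k) * Real.exp (2 * kp)

/-- The solution of the nonlinear equation. -/
structure Dat (k : ℕ) (y : ℕ → ℂ) (A : ℝ) : Prop where
  y0 : y 0 = 0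
  summable : Summable fun n => ‖y n - (if n = 1 then (Y1 : ℂ) / k else 0)‖ * 2 ^ n
  close : ∑' n, ‖y n - (if n = 1 then (Y1 : ℂ) / k else 0)‖ * 2 ^ n ≤ 1 / (1000 * k)
  eq : ∀ s : ℂ, ‖s‖ = 1 →
    (1 - sg) * (-(1 / 4 * Real.exp (-(2 * (Psi y s).re / k)) *
        ‖1 + e1 k * se y s + e2 k * se y s ^ 2‖ ^ 2) + H0 k +
      1 / k * (q2 k / 2 * se y s ^ 2 + q1 k * se y s - qm1 k / se y s -
        qm2 k / (2 * se y s ^ 2)).re) + A + 2 * (B1 k (y 1) / s).re + 2 * B2 k * (s ^ 2).re = 0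

/-- The function `Θ`. -/
def Th (k : ℕ) (y : ℕ → ℂ) (ζ : ℂ) : ℂ := ζ * Complex.exp (-(Psi y (ζ ^ k) / k))

/-- The radius of the disc where everything is defined. -/
def RR (k : ℕ) : ℝ := 1 + 1 / (4 * k)

/-- The function `P`, real on the unit circle. -/
def Pan (k : ℕ) (y1 : ℂ) (A : ℝ) (s : ℂ) : ℂ :=
  A + B1 k y1 / s + conj (B1 k y1) * s + B2 k * (s ^ 2 + 1 / s ^ 2)

/-! ### lemmas on the concrete data -/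

/-- C1: the derivative of `E`. -/
def S_C1 : Prop := ∀ (k : ℕ) (η : ℂ), 1 ≤ k → HasDerivAt (EE k) ((1 + bb k * η ^ k) ^ 2) η

/-- C2: the derivative of `H`. -/
def S_C2 : Prop := ∀ (k : ℕ) (η : ℂ), 1 ≤ k → η ≠ 0 → DifferentiableAt ℂ (HH k) η ∧
  η * deriv (HH k) η = q2 k * η ^ (2 * k) + q1 k * η ^ k + qm1 k / η ^ k + qm2 k / η ^ (2 * k)

/-- C3: `u = 0` on the outer boundary. -/
def S_C3 : Prop := ∀ (k : ℕ) (η : ℂ), 1 ≤ k → ‖η‖ = 1 →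
  -(‖EE k η‖ ^ 2 / 4) + (HH k η).re = 0

/-- C4: the normal derivative on the outer boundary. -/
def S_C4 : Prop := ∀ (k : ℕ) (η : ℂ), 1 ≤ k → ‖η‖ = 1 →
  (η * deriv (HH k) η - conj (EE k η) * (η * deriv (EE k) η) / 2).re = cc k * ‖deriv (EE k) η‖

/-- C5: bounds for `ψ` and its derivatives. -/
def S_C5 : Prop := ∀ (k : ℕ) (y : ℕ → ℂ) (A : ℝ), 1 ≤ k → Dat k y A →
  psi y 0 = 0 ∧ DifferentiableOn ℂ (psi y) (ball 0 2) ∧ deriv (psi y) 0 = y 1 ∧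
  ∀ s : ℂ, ‖s‖ ≤ 3 / 2 → ‖psi y s - Y1 / k * s‖ ≤ 1 / (1000 * k) ∧
    ‖deriv (psi y) s - Y1 / k‖ ≤ 1 / (1000 * k) ∧ ‖deriv (deriv (psi y)) s‖ ≤ 3 / (1000 * k)

/-- C6: numerical bounds. -/
def S_C6 : Prop := 2.03 < Y1 ∧ Y1 < 2.04 ∧ 1.8 < 2 * Real.exp (-kp) ∧ 2 * Real.exp (-kp) < 1.82

/-- C7: `E` is good on a disc of radius `1 + 1/k`. -/
def S_C7 : Prop := ∀ k : ℕ, 20 ≤ k → Good (1 + 1 / k) (EE k)

/-- C8: `Θ` and `E ∘ Θ` are good, and the mapping properties of `Θ`. -/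
def S_C8 : Prop := ∀ᶠ k : ℕ in atTop, ∀ (y : ℕ → ℂ) (A : ℝ), Dat k y A →
  Good (RR k) (Th k y) ∧ Good (RR k) (fun ζ => EE k (Th k y ζ)) ∧ Th k y 0 = 0 ∧
  (∀ ζ : ℂ, ‖ζ‖ ≤ 1 → ‖Th k y ζ‖ < 1) ∧
  ∀ ζ ∈ ball (0 : ℂ) (RR k), Th k y ζ ∈ ball (0 : ℂ) (RR k)

/-- C9: the convexity condition for `E ∘ Θ`. -/
def S_C9 : Prop := ∀ᶠ k : ℕ in atTop, ∀ (y : ℕ → ℂ) (A : ℝ), Dat k y A → ∀ ζ : ℂ, ‖ζ‖ = 1 →
  ‖ζ * deriv (deriv fun ζ => EE k (Th k y ζ)) ζ / deriv (fun ζ => EE k (Th k y ζ)) ζ‖ < 1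

/-- C10: the function `h`. -/
def S_C10 : Prop := ∀ᶠ k : ℕ in atTop, ∀ (y : ℕ → ℂ) (A : ℝ), Dat k y A → ∃ h : ℂ → ℂ,
  (∀ ζ ∈ ball (0 : ℂ) (RR k), DifferentiableAt ℂ h ζ) ∧
  ∀ ζ ∈ ball (0 : ℂ) (RR k), ζ ≠ 0 → h ζ = HH k (Th k y ζ) + Pan k (y 1) A (ζ ^ k)

/-- C11: the conditions on the interface. -/
def S_C11 : Prop := ∀ (k : ℕ) (y : ℕ → ℂ) (A : ℝ), 1 ≤ k → Dat k y A → ∀ ζ : ℂ, ‖ζ‖ = 1 →
  (Pan k (y 1) A (ζ ^ k)).im = 0 ∧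
  -(‖EE k (Th k y ζ)‖ ^ 2 / 4) + (HH k (Th k y ζ) + Pan k (y 1) A (ζ ^ k)).re =
    sg * (-(‖EE k (Th k y ζ)‖ ^ 2 / 4) + (HH k (Th k y ζ)).re)

/-- C12: `Ω` is not convex. -/
def S_C12 : Prop := ∀ᶠ k : ℕ in atTop, ¬ Convex ℝ (outer (EE k))

/-- FP: the nonlinear equation has a solution. -/
def S_FP : Prop := ∀ᶠ k : ℕ in atTop, ∃ (y : ℕ → ℂ) (A : ℝ), Dat k y A

/-- The main result. -/
def S_MAIN : Prop := ∃ (σ : ℝ) (D Ω : Set ℂ), 0 < σ ∧ σ ≠ 1 ∧ Convex ℝ D ∧ IsSolution σ D Ω ∧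
  ¬ Convex ℝ Ω

end

end Pool.Agent.Q61.CV
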