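import Mathlib
import Pool.Agent.Q61.CV.Stm
import Pool.Agent.Helper87.VT.MWA

/-!
# Project CV: the nonlinear equation in the weighted Wiener algebra

`T : TW ℂ B` (`Pool.Agent.Helper87.VT.MWA`): `B` is the algebra of Laurent series
`x = ∑ co n x · t^n` (`n : ℤ`) with the norm `∑ 2^|n| |co n x|`; `tau T n = t^n`; `sBB T` is the
involution `co n (sBB T x) = conj (co (-n) x)`; `eB T z` is the evaluation at `z`, `|z| = 1`.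
-/

open Set Filter Topology
open scoped ComplexConjugate
open Pool.Agent.Helper87.VT (TW tau sBB eB wt)

namespace Pool.Agent.Q61.CV

noncomputable section

section defs

variable {B : Type} [NormedCommRing B] [NormedAlgebra ℂ B]

/-- The exponential series in `B`. -/
def ex (x : B) : B := ∑' n : ℕ, ((n.factorial : ℂ)⁻¹) • x ^ n

/-- `exp (-Ψ)`, `Ψ = κ + x`. -/
def epB (x : B) : B := (Real.exp (-kp) : ℂ) • ex (-x)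

/-- `exp Ψ`, `Ψ = κ + x`. -/
def eiB (x : B) : B := (Real.exp kp : ℂ) • ex x

variable [CompleteSpace B] (T : TW ℂ B)

/-- `1 + e₁ t exp(-Ψ) + e₂ t² exp(-2Ψ)`. -/
def QB (k : ℕ) (x : B) : B := 1 + (e1 k : ℂ) • (tau T 1 * epB x) + (e2 k : ℂ) • (tau T 2 * epB x ^ 2)

/-- The terms of `H`. -/
def RB (k : ℕ) (x : B) : B :=
  ((q2 k : ℂ) / 2) • (tau T 2 * epB x ^ 2) + (q1 k : ℂ) • (tau T 1 * epB x) -
    (qm1 k : ℂ) • (tau T (-1) * eiB x) - ((qm2 k : ℂ) / 2) • (tau T (-2) * eiB x ^ 2)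

/-- `ψ + ψ*`. -/
def XB (x : B) : B := x + sBB T x

/-- The nonlinear map: the equation of the interface is `co m (NB T k x) = co m (XB T x)` for
`m ≠ 0`. -/
def NB (k : ℕ) (x : B) : B :=
  (k : ℂ) • (ex (-((1 / (k : ℂ)) • ((2 * kp : ℂ) • (1 : B) + XB T x))) *
      (QB T k x * sBB T (QB T k x))) + XB T x - (2 : ℂ) • (RB T k x + sBB T (RB T k x)) -
    ((4 * k / (1 - sg) : ℝ) : ℂ) • (B1 k (T.co 1 x) • tau T (-1) +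
      conj (B1 k (T.co 1 x)) • tau T 1 + (B2 k : ℂ) • (tau T 2 + tau T (-2)))

/-- `P` is the projection to the positive modes. -/
structure IsProj (P : B →L[ℂ] B) : Prop where
  co : ∀ n x, T.co n (P x) = if 1 ≤ n then T.co n x else 0
  norm : ∀ x, ‖P x‖ ≤ ‖x‖

end defs

/-! ## Statements; each one for every algebra -/

/-- E1 -/
def S_E1 : Prop := ∀ {B : Type} [NormedCommRing B] [NormedAlgebra ℂ B] [CompleteSpace B]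
  (_ : TW ℂ B), ‖(1 : B)‖ = 1 ∧ ∀ x : B, ‖ex x‖ ≤ Real.exp ‖x‖

/-- E2 -/
def S_E2 : Prop := ∀ {B : Type} [NormedCommRing B] [NormedAlgebra ℂ B] [CompleteSpace B]
  (_ : TW ℂ B), ex (0 : B) = 1 ∧ (∀ x y : B, ex (x + y) = ex x * ex y) ∧
    ∀ c : ℂ, ex (c • (1 : B)) = Complex.exp c • (1 : B)

/-- E3: Lipschitz bound for the exponential. -/
def S_E3 : Prop := ∀ {B : Type} [NormedCommRing B] [NormedAlgebra ℂ B] [CompleteSpace B]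
  (_ : TW ℂ B) (x y : B), ‖ex x - ex y‖ ≤ ‖x - y‖ * Real.exp (max ‖x‖ ‖y‖)

/-- E4: Lipschitz bound for the exponential minus its linear part. -/
def S_E4 : Prop := ∀ {B : Type} [NormedCommRing B] [NormedAlgebra ℂ B] [CompleteSpace B]
  (_ : TW ℂ B) (x y : B),
  ‖(ex x - x) - (ex y - y)‖ ≤ ‖x - y‖ * (max ‖x‖ ‖y‖ * Real.exp (max ‖x‖ ‖y‖))

/-- E5: evaluation and involution of the exponential. -/
def S_E5 : Prop := ∀ {B : Type} [NormedCommRing B] [NormedAlgebra ℂ B] [CompleteSpace B]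
  (T : TW ℂ B) (x : B), sBB T (ex x) = ex (sBB T x) ∧
    ∀ z : ℂ, ‖z‖ = 1 → eB T z (ex x) = Complex.exp (eB T z x)

/-- PR: the projection exists. -/
def S_PR : Prop := ∀ {B : Type} [NormedCommRing B] [NormedAlgebra ℂ B] [CompleteSpace B]
  (T : TW ℂ B), ∃ P : B →L[ℂ] B, IsProj T P

/-- K: bounds for the coefficients. -/
def S_K : Prop := ∀ k : ℕ, 1 ≤ k → 0 ≤ e1 k ∧ e1 k ≤ 2 / (k : ℝ) ^ 2 ∧
  |(k : ℝ) ^ 2 * e1 k - 2| ≤ 2 / (k : ℝ) ∧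
  0 ≤ e2 k ∧ e2 k ≤ 1 / (k : ℝ) ^ 3 ∧ |q1 k| ≤ 4 / (k : ℝ) ∧
  |(k : ℝ) * q1 k - 1 / 2| ≤ 4 / (k : ℝ) ∧
  |qm1 k| ≤ 4 / (k : ℝ) ∧ |(k : ℝ) * qm1 k + 1 / 2| ≤ 4 / (k : ℝ) ∧ 0 ≤ q2 k ∧
  q2 k ≤ 1 / (k : ℝ) ^ 2 ∧ 0 ≤ qm2 k ∧ qm2 k ≤ 1 / (k : ℝ) ^ 3

/-- EP: bounds for `exp (∓Ψ)`. -/
def S_EP : Prop := ∀ {B : Type} [NormedCommRing B] [NormedAlgebra ℂ B] [CompleteSpace B]
  (_ : TW ℂ B), ∀ x y : B, ‖x‖ ≤ 1 → ‖y‖ ≤ 1 → ‖epB x‖ ≤ 4 ∧ ‖eiB x‖ ≤ 4 ∧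
    ‖epB x - epB y‖ ≤ 4 * ‖x - y‖ ∧ ‖eiB x - eiB y‖ ≤ 4 * ‖x - y‖

/-- QQ: Lipschitz bound for `Q Q*`. -/
def S_QQ : Prop := ∃ C : ℝ, ∀ {B : Type} [NormedCommRing B] [NormedAlgebra ℂ B] [CompleteSpace B]
  (T : TW ℂ B) (k : ℕ), 1 ≤ k → ∀ x y : B, ‖x‖ ≤ 1 → ‖y‖ ≤ 1 →
    ‖QB T k x * sBB T (QB T k x) - 1‖ ≤ C / (k : ℝ) ^ 2 ∧
    ‖QB T k x * sBB T (QB T k x) - QB T k y * sBB T (QB T k y)‖ ≤ C / (k : ℝ) ^ 2 * ‖x - y‖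

/-- RL: Lipschitz bound for `R`. -/
def S_RL : Prop := ∃ C : ℝ, ∀ {B : Type} [NormedCommRing B] [NormedAlgebra ℂ B] [CompleteSpace B]
  (T : TW ℂ B) (k : ℕ), 1 ≤ k → ∀ x y : B, ‖x‖ ≤ 1 → ‖y‖ ≤ 1 →
    ‖RB T k x - RB T k y‖ ≤ C / (k : ℝ) * ‖x - y‖

/-- N1: Lipschitz bound for `N`. -/
def S_N1 : Prop := ∃ C : ℝ, ∀ {B : Type} [NormedCommRing B] [NormedAlgebra ℂ B] [CompleteSpace B]
  (T : TW ℂ B) (k : ℕ), 1 ≤ k → ∀ x y : B, ‖x‖ ≤ 1 → ‖y‖ ≤ 1 →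
    ‖NB T k x - NB T k y‖ ≤ C / (k : ℝ) * ‖x - y‖

/-- N0: the value at `0`. -/
def S_N0 : Prop := ∃ C : ℝ, ∀ {B : Type} [NormedCommRing B] [NormedAlgebra ℂ B] [CompleteSpace B]
  (T : TW ℂ B) (P : B →L[ℂ] B), IsProj T P → ∀ k : ℕ, 1 ≤ k →
    ‖P (NB T k 0) - ((Y1 : ℂ) / k) • tau T 1‖ ≤ C / (k : ℝ) ^ 2

/-- NS: symmetry of `N`. -/
def S_NS : Prop := ∀ {B : Type} [NormedCommRing B] [NormedAlgebra ℂ B] [CompleteSpace B]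
  (T : TW ℂ B) (k : ℕ) (x : B), sBB T (NB T k x) = NB T k x

/-- FIX: the fixed point. -/
def S_FIX : Prop := ∀ᶠ k : ℕ in atTop, ∀ {B : Type} [NormedCommRing B] [NormedAlgebra ℂ B]
  [CompleteSpace B] (T : TW ℂ B) (P : B →L[ℂ] B), IsProj T P →
    ∃ x : B, P (NB T k x) = x ∧ ‖x - ((Y1 : ℂ) / k) • tau T 1‖ ≤ 1 / (1000 * k)

/-- EV: evaluation of the fixed point. -/
def S_EV : Prop := ∀ {B : Type} [NormedCommRing B] [NormedAlgebra ℂ B] [CompleteSpace B]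
  (T : TW ℂ B) (P : B →L[ℂ] B), IsProj T P → ∀ (k : ℕ) (x : B), 1 ≤ k → P (NB T k x) = x →
    ‖x - ((Y1 : ℂ) / k) • tau T 1‖ ≤ 1 / (1000 * k) →
    ∃ A : ℝ, Dat k (fun n => T.co n x) A

end

end Pool.Agent.Q61.CV
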